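import Pool.Agent.H43.Chq2

namespace Pool.Agent.Results.MP_c62d6e_an.Cex

open Set MeasureTheory Real Pool.Agent.H43

/-- `2π`-periodic weight functions. -/
def IsWeight (W : ℝ → ℝ) : Prop :=
  (∀ θ, 0 ≤ W θ) ∧ Function.Periodic W (2 * π) ∧ Measurable W ∧
    IntervalIntegrable W volume (-π) π ∧ 0 < ∫ θ in (-π)..π, W θ

/-- Real trigonometric polynomials of degree at most `n`. -/
def T (n : ℕ) : Submodule ℝ (ℝ → ℝ) :=
  Submodule.span ℝ {f | ∃ k : ℕ, k ≤ n ∧ (f = (fun θ => cos (k * θ)) ∨ f = fun θ => sin (k * θ))}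

/-- A Chebyshev-type quadrature of degree `n` for `W` with `N` nodes exists. -/
def Quad (W : ℝ → ℝ) (n N : ℕ) : Prop :=
  ∃ (θ : Fin N → ℝ) (w : ℝ), Monotone θ ∧ ∀ p ∈ T n, ∫ x in (-π)..π, p x * W x = w * ∑ j, p (θ j)

/-- The least number of nodes. -/
noncomputable def Nmin (W : ℝ → ℝ) (n : ℕ) : ℕ∞ := ⨅ (N : ℕ) (_ : Quad W n N), (N : ℕ∞)

/-- The least number from which on every node count occurs. -/
noncomputable def Nbar (W : ℝ → ℝ) (n : ℕ) : ℕ∞ :=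
  ⨅ (N₀ : ℕ) (_ : ∀ N, N₀ ≤ N → Quad W n N), (N₀ : ℕ∞)

/-- Near every point `W` agrees with `W₁` or with `W₂`. -/
def Loc (W₁ W₂ W : ℝ → ℝ) : Prop := ∀ x, ∃ U, IsOpen U ∧ x ∈ U ∧ (EqOn W W₁ U ∨ EqOn W W₂ U)

lemma key {W₁ W₂ W : ℝ → ℝ} {n M : ℕ} (h1 : ∀ N, 2 * n < N → Quad W₁ n N)
    (h2 : ∀ N, 2 * n < N → Quad W₂ n N) (h : ∀ N ≤ M * (2 * n + 1), ¬ Quad W n N) :
    M * max (Nmin W₁ n) (Nmin W₂ n) < Nmin W n ∧ M * max (Nbar W₁ n) (Nbar W₂ n) < Nbar W n := by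
  have a : ∀ {V : ℝ → ℝ}, (∀ N, 2 * n < N → Quad V n N) →
      Nmin V n ≤ (2 * n + 1 : ℕ) ∧ Nbar V n ≤ (2 * n + 1 : ℕ) := fun hV =>
    ⟨iInf₂_le _ (hV _ (by omega)), iInf₂_le _ fun N hN => hV N hN⟩
  have b : ∀ x y z : ℕ∞, x ≤ (2 * n + 1 : ℕ) → y ≤ (2 * n + 1 : ℕ) →
      ((M * (2 * n + 1) + 1 : ℕ) : ℕ∞) ≤ z → M * max x y < z := fun x y z hx hy hz =>
    (mul_le_mul_right (max_le hx hy) _).trans_lt
      (lt_of_lt_of_le (by exact_mod_cast Nat.lt_succ_self _) hz)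
  refine ⟨b _ _ _ (a h1).1 (a h2).1 (le_iInf₂ fun N hN => ?_),
    b _ _ _ (a h1).2 (a h2).2 (le_iInf₂ fun N hN => ?_)⟩
  · exact_mod_cast Nat.succ_le_of_lt (not_le.1 fun c => h N c hN)
  · exact_mod_cast Nat.succ_le_of_lt (not_le.1 fun c => h N c (hN N le_rfl))

theorem result : ∃ W₁ W₂ W : ℝ → ℝ, IsWeight W₁ ∧ IsWeight W₂ ∧ IsWeight W ∧ Loc W₁ W₂ W ∧
    ∀ M : ℕ, ∃ n, 1 ≤ n ∧ M * max (Nmin W₁ n) (Nmin W₂ n) < Nmin W n ∧
      M * max (Nbar W₁ n) (Nbar W₂ n) < Nbar W n := by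
  have hp := pi_pos
  have s1 : 0 < √2 - 1 := by nlinarith [sqrt_nonneg 2, mul_self_sqrt (zero_le_two (α := ℝ))]
  have n1 : ∀ θ, 0 ≤ Chq.W1 θ := fun θ => by unfold Chq.W1; positivity
  have n2 : ∀ θ, 0 ≤ Chq.W2 θ := fun θ => mul_nonneg s1.le (n1 _)
  have m1 : Measurable Chq.W1 := by unfold Chq.W1; fun_prop
  have m2 : Measurable Chq.W2 := (m1.comp (measurable_add_const π)).const_mul _
  have i1 : 0 < ∫ θ in (-π)..π, Chq.W1 θ := by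
    have := Chq.W1_push.2 fun _ => 1
    simp only [one_mul] at this
    rw [this]; simpa using hp
  have i2 : 0 < ∫ θ in (-π)..π, Chq.W2 θ := by
    have := Chq.W2_push.2 (fun _ => 1) fun _ => rfl
    simp only [one_mul] at this
    rw [this]; simpa using mul_pos s1 hp
  refine ⟨Chq.W1, Chq.W2, fun θ => Chq.W1 θ + Chq.W2 θ, ⟨n1, Chq.W1_per, m1, Chq.W1_push.1, i1⟩,
    ⟨n2, Chq.W2_per, m2, Chq.W2_push.1, i2⟩, ⟨fun θ => add_nonneg (n1 θ) (n2 θ),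
    Chq.W1_per.add Chq.W2_per, m1.add m2, Chq.W1_push.1.add Chq.W2_push.1, ?_⟩, fun x => ?_,
    fun M => ?_⟩
  · rw [intervalIntegral.integral_add Chq.W1_push.1 Chq.W2_push.1]; linarith
  · by_cases hx : 0 < cos x
    · refine ⟨{θ | 0 < cos θ}, isOpen_lt continuous_const continuous_cos, hx,
        Or.inl fun θ (hθ : 0 < cos θ) => ?_⟩
      simp only [Chq.W2, Chq.W1, cos_add_pi]
      rw [sqrt_eq_zero_of_nonpos (by linarith : 4 * -cos θ - 2 ≤ 0)]; simp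
    · refine ⟨{θ | cos θ < 1 / 2}, isOpen_lt continuous_cos continuous_const,
        (by linarith : cos x < 1 / 2), Or.inr fun θ (hθ : cos θ < 1 / 2) => ?_⟩
      simp only
      rw [Chq.W1, sqrt_eq_zero_of_nonpos (by linarith : 4 * cos θ - 2 ≤ 0)]; simp
  · obtain ⟨k, hk⟩ := Chq.exists_k M
    exact ⟨2 * 3 ^ k, Nat.succ_le_of_lt (by positivity),
      key (fun N hN => Chq.W1_quad hN) (fun N hN => Chq.W2_quad hN) hk⟩

end Pool.Agent.Results.MP_c62d6e_an.Cex
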